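import Pool.Agent.P8H34.MB.Stm

/-!
# Project MB: the rational hull of the orthant
-/

set_option autoImplicit false

open Pool.Agent.Y167
open Pool.Agent.N110.CC Pool.Agent.N165.KM Filter Topology
open Pool.Agent.P8H34.MB

namespace Pool.Agent.P8H19.MB

section

variable {r b ρ : ℕ} {d : Fin b → ℕ} {ℓ : Ix d → Frm r} {s : ∀ i, Fin (d i) → Fin ρ → ℤ}
  {G : (Fin r → ℤ) → ((Fin ρ → ℝ) →ₗ[ℝ] (Fin ρ → ℝ))} {e : Module.Basis (Ix d) ℝ (Fin ρ → ℝ)}

theorem repr_G (hD : Dat d ℓ s G e) (v : Fin r → ℤ) (x : Fin ρ → ℝ) (p : Ix d) :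
    e.repr (G v x) p = Real.exp (ev (ℓ p) v) * e.repr x p := by
  classical
  have h1 : x = ∑ k, e.repr x k • e k := (e.sum_repr x).symm
  have h2 : G v x = ∑ k, (Real.exp (ev (ℓ k) v) * e.repr x k) • e k := by
    conv_lhs => rw [h1]
    rw [map_sum]
    refine Finset.sum_congr rfl fun k _ => ?_
    rw [map_smul, hD.eig, smul_smul, mul_comm]
  rw [h2]
  simp [map_sum, Finsupp.single_apply]

/-- a common denominator -/
theorem common_den (x : Fin ρ → ℝ) (hx : ∀ i, ∃ q : ℚ, x i = q) :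
    ∃ k : ℕ, 0 < k ∧ (k : ℝ) • x ∈ IntL ρ := by
  classical
  choose q hq using hx
  refine ⟨∏ i, (q i).den, Finset.prod_pos fun i _ => (q i).pos, fun i => ?_⟩
  refine ⟨(q i).num * ∏ j ∈ Finset.univ.erase i, ((q j).den : ℤ), ?_⟩
  rw [Pi.smul_apply, smul_eq_mul, hq, ← Finset.mul_prod_erase Finset.univ _ (Finset.mem_univ i)]
  push_cast
  have h1 : ((q i).den : ℝ) * ((q i : ℚ) : ℝ) = (q i).num := by
    have h2 : ((q i).den : ℚ) * q i = (q i).num := by rw [mul_comm]; exact Rat.mul_den_eq_num _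
    exact_mod_cast h2
  calc ((q i).den : ℝ) * (∏ j ∈ Finset.univ.erase i, ((q j).den : ℝ)) * ((q i : ℚ) : ℝ)
      = (((q i).den : ℝ) * ((q i : ℚ) : ℝ)) * ∏ j ∈ Finset.univ.erase i, ((q j).den : ℝ) := by
        ring
    _ = _ := by rw [h1]

theorem rat_of_smul {x : Fin ρ → ℝ} {k : ℕ} (hk : 0 < k) (h : (k : ℝ) • x ∈ IntL ρ) (i : Fin ρ) :
    ∃ q : ℚ, x i = q := by
  obtain ⟨m, hm⟩ := h i
  refine ⟨(m : ℚ) / k, ?_⟩
  have hk0 : (k : ℝ) ≠ 0 := by exact_mod_cast hk.ne'
  rw [Pi.smul_apply, smul_eq_mul] at hm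
  push_cast
  rw [eq_div_iff hk0, mul_comm]
  exact hm

theorem coneOf_zero (A : Set (Fin ρ → ℝ)) : (0 : Fin ρ → ℝ) ∈ coneOf A :=
  ⟨∅, by simp, zero_mem_cone _⟩

theorem coneOf_add {A : Set (Fin ρ → ℝ)} {x y : Fin ρ → ℝ} (hx : x ∈ coneOf A)
    (hy : y ∈ coneOf A) : x + y ∈ coneOf A := by
  classical
  obtain ⟨S, hS, hx⟩ := hx
  obtain ⟨T, hT, hy⟩ := hy
  refine ⟨S ∪ T, ?_, cone_add (cone_mono Finset.subset_union_left hx)
    (cone_mono Finset.subset_union_right hy)⟩
  rw [Finset.coe_union]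
  exact Set.union_subset hS hT

theorem coneOf_smul {A : Set (Fin ρ → ℝ)} {x : Fin ρ → ℝ} {t : ℝ} (ht : 0 ≤ t)
    (hx : x ∈ coneOf A) : t • x ∈ coneOf A := by
  obtain ⟨S, hS, hx⟩ := hx
  exact ⟨S, hS, cone_smul hx ht⟩

theorem coneOf_map {A : Set (Fin ρ → ℝ)} (g : (Fin ρ → ℝ) →ₗ[ℝ] (Fin ρ → ℝ))
    (hg : ∀ x ∈ A, g x ∈ A) {x : Fin ρ → ℝ} (hx : x ∈ coneOf A) : g x ∈ coneOf A := by
  classical
  obtain ⟨S, hS, hx⟩ := hx
  refine ⟨S.image g, ?_, cone_image g hx⟩
  intro y hy
  rw [Finset.mem_coe, Finset.mem_image] at hy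
  obtain ⟨a, ha, rfl⟩ := hy
  exact hg a (hS ha)

theorem coneOf_self {A : Set (Fin ρ → ℝ)} {x : Fin ρ → ℝ} (hx : x ∈ A) : x ∈ coneOf A :=
  ⟨{x}, by simpa using hx, mem_cone_self (Finset.mem_singleton_self x)⟩

end

theorem hul : S_HUL := by
  classical
  intro hRAT hCVR hCOV hORB r b ρ d ℓ s G e hD
  apply Set.Subset.antisymm
  · rintro x ⟨S, hS, hx⟩
    refine cone_ind (p := fun x => x ∈ plus e) ?_ ?_ ?_ ?_ hx
    · intro i
      left
      intro j
      simp
    · intro x y hx hy i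
      rcases hx i with h1 | h1 <;> rcases hy i with h2 | h2
      · left
        intro j
        rw [map_add, Finsupp.add_apply, h1 j, h2 j, add_zero]
      · right
        intro j
        rw [map_add, Finsupp.add_apply, h1 j, zero_add]
        exact h2 j
      · right
        intro j
        rw [map_add, Finsupp.add_apply, h2 j, add_zero]
        exact h1 j
      · right
        intro j
        rw [map_add, Finsupp.add_apply]
        exact add_pos (h1 j) (h2 j)
    · intro t x ht hx i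
      rcases ht.eq_or_lt with h0 | h0
      · left
        intro j
        rw [← h0, zero_smul]
        simp
      · rcases hx i with h1 | h1
        · left
          intro j
          rw [map_smul, Finsupp.smul_apply, h1 j, smul_zero]
        · right
          intro j
          rw [map_smul, Finsupp.smul_apply, smul_eq_mul]
          exact mul_pos h0 (h1 j)
    · intro a ha i
      obtain ⟨h1, h2⟩ := hS ha
      obtain ⟨k, hk, hki⟩ := common_den a h2
      have hk0 : (0 : ℝ) < k := by exact_mod_cast hk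
      rcases hRAT r b ρ d ℓ s G e hD _ hki i with h3 | h3
      · left
        intro j
        have h4 := h3 j
        rw [map_smul, Finsupp.smul_apply, smul_eq_mul] at h4
        rcases mul_eq_zero.1 h4 with h5 | h5
        · exact absurd h5 hk0.ne'
        · exact h5
      · right
        intro j
        have h4 := h3 j
        rw [map_smul, Finsupp.smul_apply, smul_eq_mul] at h4
        exact lt_of_le_of_ne (h1 ⟨i, j⟩) fun h5 => h4 (by rw [← h5, mul_zero])
  · obtain ⟨F, hF, -, hF3⟩ := hCVR hCOV r b ρ d ℓ s G e hD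
    refine hORB r b ρ d ℓ s G e hD (ratHull {x | ∀ p, 0 ≤ e.repr x p}) (coneOf_zero _)
      (fun x hx y hy => coneOf_add hx hy) (fun t ht x hx => coneOf_smul ht hx) ?_ ?_
    · intro v x hx
      refine coneOf_map (G v) ?_ hx
      rintro z ⟨hz1, hz2⟩
      refine ⟨fun p => ?_, fun i => ?_⟩
      · rw [repr_G hD]
        exact mul_nonneg (Real.exp_pos _).le (hz1 p)
      · obtain ⟨k, hk, hki⟩ := common_den z hz2
        refine rat_of_smul hk ?_ i
        rw [← map_smul]
        exact hD.int v _ hki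
    · intro i
      obtain ⟨a, ha, hia⟩ := hF3 i
      refine ⟨a, coneOf_self ⟨fun p => ?_, fun k => ?_⟩, hia⟩
      · by_cases hp : p.1 = i
        · exact ((hia p).1 hp).le
        · exact ((hia p).2 hp).ge
      · obtain ⟨m, hm⟩ := (hF a ha).1 k
        exact ⟨m, by rw [hm]; push_cast; rfl⟩

theorem t_HUL : S_HUL := hul

end Pool.Agent.P8H19.MB
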