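import Pool.Agent.P8H34.MB.Stm

/-!
# Project MB: integral vectors of the closed cone are in the cone with a fundamental domain
-/

set_option autoImplicit false

open Pool.Agent.Y167 Pool.Agent.Y167.CData
open Pool.Agent.N110.CC Pool.Agent.N165.KM Filter Topology
open Pool.Agent.P8H34.MB

namespace Pool.Agent.P8H19.MB

theorem sandwich_self {ρ : ℕ} {C N : Set (Fin ρ → ℝ)} (h : Sandwich C N) : Sandwich C C :=
  ⟨h.closed, h.add, h.smul, h.pointed, h.int, subset_rfl, interior_subset, h.add, h.smul⟩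

theorem loo : S_LOO := by
  classical
  intro ρ C N h A _ pull hmul hL hN hC hfd x hxC hxL
  obtain ⟨ξ₀, y₀, Y, D, hy₀⟩ := exists_cdata (sandwich_self h)
  obtain ⟨S, hS, hcov⟩ := hfd.cover hmul
  have hLr : ∀ g ∈ rangeSub hmul, ∀ x ∈ IntL ρ, g x ∈ IntL ρ := by
    rintro _ ⟨f, rfl⟩; exact hL f
  have hCr : ∀ g ∈ rangeSub hmul, ∀ x ∈ C, g x ∈ C := by
    rintro _ ⟨f, rfl⟩; exact hC f
  have hSC : ∀ a ∈ S, a ∈ IntL ρ ∧ a ∈ C := fun a ha => ⟨(hS a ha).1, h.Nsub (hS a ha).2⟩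
  have hnn : ∀ z ∈ C, 0 ≤ ξ₀ z := fun z hz => D.xi_nonneg hz
  obtain ⟨T, hT𝒢, hT⟩ := D.exists_dickson (rangeSub hmul) hLr hCr D.xi_int one_pos
    (fun x _ => by rw [one_mul]) S hSC
  have hTne : T.Nonempty := by
    obtain ⟨t, ht, -⟩ := hT 1 (rangeSub hmul).one_mem
    exact ⟨t, ht⟩
  -- the least value on the orbit of `x`
  obtain ⟨h₀, hh₀, hmin₀⟩ : ∃ h₀ ∈ rangeSub hmul, ∀ g ∈ rangeSub hmul, ξ₀ (h₀ x) ≤ ξ₀ (g x) := by
    have hex : ∃ n : ℕ, ∃ g ∈ rangeSub hmul, ξ₀ (g x) = n := by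
      obtain ⟨m, hm⟩ := D.xi_int x hxL
      have h0 := hnn x hxC
      rw [hm] at h0
      have h1 : 0 ≤ m := by exact_mod_cast h0
      obtain ⟨k, rfl⟩ := Int.eq_ofNat_of_zero_le h1
      refine ⟨k, 1, (rangeSub hmul).one_mem, ?_⟩
      have : ((1 : (Fin ρ → ℝ) ≃ₗ[ℝ] (Fin ρ → ℝ)) x) = x := rfl
      rw [this, hm]
      simp
    obtain ⟨g₀, hg₀, hg₀n⟩ := Nat.find_spec hex
    refine ⟨g₀, hg₀, fun g hg => ?_⟩
    obtain ⟨m, hm⟩ := D.xi_int _ (hLr g hg x hxL)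
    have h0 := hnn _ (hCr g hg x hxC)
    rw [hm] at h0
    have h1 : 0 ≤ m := by exact_mod_cast h0
    obtain ⟨k, rfl⟩ := Int.eq_ofNat_of_zero_le h1
    have h2 : Nat.find hex ≤ k := Nat.find_min' hex ⟨g, hg, by rw [hm]; simp⟩
    rw [hg₀n, hm]
    have : ((Nat.find hex : ℕ) : ℝ) ≤ (k : ℝ) := by exact_mod_cast h2
    simpa using this
  -- the vectors in the interior
  obtain ⟨δ, hδ⟩ : ∃ δ : ℕ → ℝ, δ = fun n : ℕ => 1 / ((n : ℝ) + 1) := ⟨_, rfl⟩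
  have hδpos : ∀ n, 0 < δ n := fun n => by rw [hδ]; positivity
  have hδ1 : ∀ n, δ n ≤ 1 := fun n => by
    rw [hδ]
    show 1 / ((n : ℝ) + 1) ≤ 1
    rw [div_le_one (by positivity)]
    have : (0 : ℝ) ≤ n := Nat.cast_nonneg n
    linarith
  have hδlim : Tendsto δ atTop (𝓝 0) := by rw [hδ]; exact tendsto_one_div_add_atTop_nhds_zero_nat
  have hint : ∀ n, x + δ n • y₀ ∈ N := by
    intro n
    apply h.Nint
    rw [add_comm]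
    exact interior_add_mem h.add (interior_smul_mem h.smul (hδpos n) hy₀) hxC
  have hg : ∀ n, ∃ g ∈ rangeSub hmul, g (x + δ n • y₀) ∈ cone S := by
    intro n
    obtain ⟨f, hf⟩ := hcov _ (hint n)
    exact ⟨pull f, ⟨f, rfl⟩, hf⟩
  choose g hg𝒢 hgS using hg
  have ht : ∀ n, ∃ t ∈ T, ∀ k ∈ rangeSub hmul, ξ₀ (t (g n (x + δ n • y₀))) ≤ ξ₀ (k (x + δ n • y₀)) := by
    intro n
    obtain ⟨t, ht, hmin⟩ := Finset.exists_min_image T (fun t => ξ₀ (t (g n (x + δ n • y₀)))) hTne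
    refine ⟨t, ht, fun k hk => ?_⟩
    obtain ⟨t', ht', h3⟩ := hT (k * (g n)⁻¹) ((rangeSub hmul).mul_mem hk
      ((rangeSub hmul).inv_mem (hg𝒢 n)))
    have h4 : ξ₀ ((t' : (Fin ρ → ℝ) →ₗ[ℝ] (Fin ρ → ℝ)) (g n (x + δ n • y₀))) ≤
        ξ₀ (((k * (g n)⁻¹ : (Fin ρ → ℝ) ≃ₗ[ℝ] (Fin ρ → ℝ)) : (Fin ρ → ℝ) →ₗ[ℝ] (Fin ρ → ℝ))
          (g n (x + δ n • y₀))) := le_of_cone (fun a ha => h3 a ha) (hgS n)
    have h5 : (k * (g n)⁻¹) (g n (x + δ n • y₀)) = k (x + δ n • y₀) := by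
      have : (k * (g n)⁻¹) (g n (x + δ n • y₀)) = (k * (g n)⁻¹ * g n) (x + δ n • y₀) := rfl
      rw [this, inv_mul_cancel_right]
    refine (hmin t' ht').trans (h4.trans (le_of_eq ?_))
    exact congrArg ξ₀ h5
  choose t htT htmin using ht
  obtain ⟨B, hB⟩ : ∃ B : ℝ, B = ξ₀ (h₀ x) + ξ₀ (h₀ y₀) := ⟨_, rfl⟩
  have hy₀C : y₀ ∈ C := interior_subset hy₀
  have hbd : ∀ n, ξ₀ (t n (g n x)) ≤ B ∧ ξ₀ (t n (g n y₀)) ≤ B := by
    intro n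
    have h1 := htmin n h₀ hh₀
    have h2 := hmin₀ (t n * g n) ((rangeSub hmul).mul_mem (hT𝒢 _ (htT n)) (hg𝒢 n))
    have h3 : ξ₀ ((t n * g n) x) = ξ₀ (t n (g n x)) := rfl
    rw [h3] at h2
    rw [map_add, map_add, map_add, map_add, map_smul, map_smul, map_smul, map_smul, map_add,
      map_smul, smul_eq_mul, smul_eq_mul] at h1
    have h4 := hnn _ (hCr _ (hT𝒢 _ (htT n)) _ (hCr _ (hg𝒢 n) _ hy₀C))
    have h5 := hnn _ (hCr _ hh₀ _ hy₀C)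
    have h6 := hnn _ (hCr _ hh₀ _ hxC)
    have h7 : δ n * ξ₀ (h₀ y₀) ≤ ξ₀ (h₀ y₀) := mul_le_of_le_one_left h5 (hδ1 n)
    have h8 : 0 ≤ δ n * ξ₀ (t n (g n y₀)) := mul_nonneg (hδpos n).le h4
    refine ⟨by rw [hB]; linarith, ?_⟩
    have h9 : δ n * ξ₀ (t n (g n y₀)) ≤ δ n * ξ₀ (h₀ y₀) := by linarith
    have h10 := le_of_mul_le_mul_left h9 (hδpos n)
    rw [hB]
    linarith
  -- pigeonhole
  have hPfin : {z | z ∈ IntL ρ ∧ z ∈ C ∧ ξ₀ z ≤ B}.Finite := D.fin B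
  let P := {z | z ∈ IntL ρ ∧ z ∈ C ∧ ξ₀ z ≤ B}
  have : Finite P := hPfin
  have hmemx : ∀ n, t n (g n x) ∈ P := fun n =>
    ⟨hLr _ (hT𝒢 _ (htT n)) _ (hLr _ (hg𝒢 n) _ hxL), hCr _ (hT𝒢 _ (htT n)) _ (hCr _ (hg𝒢 n) _ hxC),
      (hbd n).1⟩
  have hmemy : ∀ n, t n (g n y₀) ∈ P := fun n =>
    ⟨hLr _ (hT𝒢 _ (htT n)) _ (hLr _ (hg𝒢 n) _ D.y_L),
      hCr _ (hT𝒢 _ (htT n)) _ (hCr _ (hg𝒢 n) _ hy₀C), (hbd n).2⟩
  let Φ : ℕ → P × P × T := fun n => (⟨_, hmemx n⟩, ⟨_, hmemy n⟩, ⟨t n, htT n⟩)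
  obtain ⟨⟨p, q, t₀⟩, hinf⟩ := Finite.exists_infinite_fiber Φ
  have hinf' : (Φ ⁻¹' {(p, q, t₀)}).Infinite := Set.infinite_coe_iff.1 hinf
  obtain ⟨φ, hφ, hφr⟩ : ∃ φ : ℕ → ℕ, StrictMono φ ∧ ∀ n, Φ (φ n) = (p, q, t₀) := by
    have h1 : ∃ᶠ n in atTop, Φ n = (p, q, t₀) := by
      rw [Nat.frequently_atTop_iff_infinite]
      exact hinf'
    exact extraction_of_frequently_atTop h1
  have hkey : ∀ n, g (φ n) x = (t₀.1)⁻¹ p.1 ∧ g (φ n) y₀ = (t₀.1)⁻¹ q.1 := by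
    intro n
    have h1 := hφr n
    have hp : t (φ n) (g (φ n) x) = p.1 := by
      have := congrArg (fun z : P × P × T => (z.1 : Fin ρ → ℝ)) h1
      exact this
    have hq : t (φ n) (g (φ n) y₀) = q.1 := by
      have := congrArg (fun z : P × P × T => (z.2.1 : Fin ρ → ℝ)) h1
      exact this
    have ht : t (φ n) = t₀.1 := by
      have := congrArg (fun z : P × P × T => (z.2.2 : (Fin ρ → ℝ) ≃ₗ[ℝ] (Fin ρ → ℝ))) h1
      exact this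
    rw [ht] at hp hq
    refine ⟨?_, ?_⟩
    · rw [← hp]
      have : (t₀.1)⁻¹ (t₀.1 (g (φ n) x)) = ((t₀.1)⁻¹ * t₀.1) (g (φ n) x) := rfl
      rw [this, inv_mul_cancel]
      rfl
    · rw [← hq]
      have : (t₀.1)⁻¹ (t₀.1 (g (φ n) y₀)) = ((t₀.1)⁻¹ * t₀.1) (g (φ n) y₀) := rfl
      rw [this, inv_mul_cancel]
      rfl
  have hcone : ∀ n, (t₀.1)⁻¹ p.1 + δ (φ n) • (t₀.1)⁻¹ q.1 ∈ cone S := by
    intro n
    have h1 := hgS (φ n)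
    rw [map_add, map_smul, (hkey n).1, (hkey n).2] at h1
    exact h1
  -- remove zero from `S`
  have hS' : ∀ z, z ∈ cone S → z ∈ cone (S.filter (· ≠ 0)) := by
    intro z hz
    refine cone_le (fun a ha => ?_) hz
    by_cases h0 : a = 0
    · rw [h0]
      exact zero_mem_cone _
    · exact mem_cone_self (Finset.mem_filter.2 ⟨ha, h0⟩)
  have hlim : (t₀.1)⁻¹ p.1 ∈ cone (S.filter (· ≠ 0)) := by
    refine cone_closed ξ₀ (fun a ha => ?_) (hδlim.comp hφ.tendsto_atTop) fun n => hS' _ (hcone n)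
    have h1 := Finset.mem_filter.1 ha
    exact D.xi_pos a (hSC a h1.1).2 h1.2
  have hlimN : (t₀.1)⁻¹ p.1 ∈ N := by
    refine cone_mem_Nf h (fun a ha => ?_) hlim
    exact (hS a (Finset.mem_filter.1 ha).1).2
  have h1 : g (φ 0) x ∈ N := by
    rw [(hkey 0).1]
    exact hlimN
  obtain ⟨f, hf⟩ := hg𝒢 (φ 0)
  have h2 := hN f⁻¹ _ h1
  rw [← hf, pull_inv_apply hmul] at h2
  exact h2

theorem t_LOO : S_LOO := loo

end Pool.Agent.P8H19.MB
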