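import Pool.Agent.P8H34.MB.Stm

/-!
# Project MB: the invariant cones are orthants
-/

set_option autoImplicit false

open Pool.Agent.Y167 (cone)
open Pool.Agent.N110.CC Pool.Agent.N165.KM Filter Topology
open Pool.Agent.P8H34.MB

namespace Pool.Agent.P8H19.MB

section

variable {ι : Type} [Fintype ι] {ρ : ℕ}

omit [Fintype ι] in
theorem cont_repr (b : Module.Basis ι ℝ (Fin ρ → ℝ)) (p : ι) :
    Continuous fun x => b.repr x p := by
  have h1 : (fun x => b.repr x p) = fun x => b.coord p x := by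
    funext x
    rfl
  rw [h1]
  exact LinearMap.continuous_of_finiteDimensional _

/-- an interior point without zero coordinates -/
theorem exists_gen {C : Set (Fin ρ → ℝ)} (hC : (interior C).Nonempty)
    (e : Module.Basis ι ℝ (Fin ρ → ℝ)) : ∃ x ∈ interior C, ∀ p, e.repr x p ≠ 0 := by
  classical
  obtain ⟨y, hy⟩ := hC
  have h1 : Tendsto (fun t : ℝ => y + t • ∑ p, e p) (𝓝[>] 0) (𝓝 (y + (0 : ℝ) • ∑ p, e p)) := by
    have : Continuous fun t : ℝ => y + t • ∑ p, e p := by fun_prop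
    exact (this.tendsto 0).mono_left nhdsWithin_le_nhds
  rw [zero_smul, add_zero] at h1
  have h2 : ∀ᶠ t : ℝ in 𝓝[>] 0, y + t • ∑ p, e p ∈ interior C :=
    h1 (isOpen_interior.mem_nhds hy)
  have h3 : ∀ p, ∀ᶠ t : ℝ in 𝓝[>] 0, e.repr y p + t ≠ 0 := by
    intro p
    by_cases h0 : e.repr y p = 0
    · filter_upwards [self_mem_nhdsWithin] with t ht
      rw [h0, zero_add]
      exact (ne_of_gt ht)
    · have h4 : Tendsto (fun t : ℝ => e.repr y p + t) (𝓝[>] 0) (𝓝 (e.repr y p + 0)) := by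
        have : Continuous fun t : ℝ => e.repr y p + t := by fun_prop
        exact (this.tendsto 0).mono_left nhdsWithin_le_nhds
      rw [add_zero] at h4
      exact h4.eventually_ne h0
  have h4 : ∀ᶠ t : ℝ in 𝓝[>] 0, ∀ p, e.repr y p + t ≠ 0 := eventually_all.2 h3
  obtain ⟨t, ht1, ht2⟩ := (h2.and h4).exists
  refine ⟨_, ht1, fun p => ?_⟩
  have h5 : e.repr (y + t • ∑ q, e q) p = e.repr y p + t := by
    rw [map_add, map_smul, map_sum]
    simp [Finsupp.single_apply]
  rw [h5]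
  exact ht2 p

theorem mem_of_nonneg' {C : Set (Fin ρ → ℝ)} (h0 : (0 : Fin ρ → ℝ) ∈ C)
    (hadd : ∀ x ∈ C, ∀ y ∈ C, x + y ∈ C) (hsmul : ∀ t : ℝ, 0 ≤ t → ∀ x ∈ C, t • x ∈ C)
    {e : Module.Basis ι ℝ (Fin ρ → ℝ)} (he : ∀ p, e p ∈ C) {x : Fin ρ → ℝ}
    (hx : ∀ p, 0 ≤ e.repr x p) : x ∈ C := by
  classical
  rw [← e.sum_repr x]
  refine Finset.sum_induction _ (· ∈ C) (fun a b ha hb => hadd a ha b hb) h0 ?_
  intro j _
  exact hsmul _ (hx j) _ (he j)

end

theorem ort : S_ORT := by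
  classical
  intro hLIM r b ρ d ℓ s G e hD C hC hint hG
  obtain ⟨x, hx, hx0⟩ := exists_gen hint e
  have hxC := interior_subset hx
  obtain ⟨w, hw⟩ : ∃ w : Ix d → ℝˣ, w = fun p => if 0 < e.repr x p then 1 else -1 := ⟨_, rfl⟩
  have hw2 : ∀ p, (w p : ℝ) * |e.repr x p| = e.repr x p := by
    intro p
    rw [hw]
    by_cases h : 0 < e.repr x p
    · simp only [if_pos h, Units.val_one, one_mul]
      exact abs_of_pos h
    · simp only [if_neg h, Units.val_neg, Units.val_one, neg_mul, one_mul]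
      rw [abs_of_nonpos (not_lt.1 h), neg_neg]
  have hww : ∀ p, (w p : ℝ) * (w p : ℝ) = 1 := by
    intro p
    rw [hw]
    by_cases h : 0 < e.repr x p
    · simp only [if_pos h, Units.val_one, one_mul]
    · simp only [if_neg h, Units.val_neg, Units.val_one, neg_mul, one_mul, neg_neg]
  obtain ⟨e', he'⟩ : ∃ e' : Module.Basis (Ix d) ℝ (Fin ρ → ℝ), e' = e.unitsSMul w := ⟨_, rfl⟩
  have hap : ∀ p, e' p = (w p : ℝ) • e p := by
    intro p
    rw [he', Module.Basis.unitsSMul_apply]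
    rfl
  have he'C : ∀ p, e' p ∈ C := by
    intro p
    have h1 := hLIM r b ρ d ℓ s G e hD C hC.closed hC.smul hG x hxC p
    have h2 := hC.smul (|e.repr x p|)⁻¹ (inv_nonneg.2 (abs_nonneg _)) _ h1
    rw [smul_smul] at h2
    have h3 : (|e.repr x p|)⁻¹ * e.repr x p = w p := by
      have h4 : |e.repr x p| ≠ 0 := abs_ne_zero.2 (hx0 p)
      rw [← hw2 p, abs_mul]
      have h5 : |(w p : ℝ)| = 1 := by
        have h6 : |(w p : ℝ)| * |(w p : ℝ)| = 1 := by rw [← abs_mul, hww, abs_one]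
        nlinarith [abs_nonneg (w p : ℝ)]
      rw [h5, one_mul, abs_abs]
      field_simp
    rw [h3] at h2
    rwa [hap]
  have hD' : Dat d ℓ s G e' := by
    refine ⟨hD.blk, hD.two, hD.card, hD.li, hD.zero, hD.add, hD.int, hD.lat, ?_, ?_⟩
    · intro p
      obtain ⟨t, ht⟩ := hD.mem p
      refine ⟨(w p : ℝ) • t, ?_⟩
      rw [hap, ht]
      simp only [comb, Finset.smul_sum, Pi.smul_apply, smul_eq_mul, smul_smul]
    · intro v p
      rw [hap, map_smul, hD.eig, smul_comm]
  have h0C : (0 : Fin ρ → ℝ) ∈ C := by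
    have := hC.smul 0 le_rfl _ hxC
    rwa [zero_smul] at this
  have hmem : ∀ x, x ∈ C ↔ ∀ p, 0 ≤ e'.repr x p := by
    intro z
    constructor
    · intro hz p
      by_contra hcon
      push Not at hcon
      have h1 := hLIM r b ρ d ℓ s G e' hD' C hC.closed hC.smul hG z hz p
      have h2 := hC.smul (-(e'.repr z p))⁻¹ (inv_nonneg.2 (by linarith)) _ h1
      rw [smul_smul] at h2
      have h4 : (-(e'.repr z p))⁻¹ * e'.repr z p = -1 := by
        rw [inv_neg, neg_mul, inv_mul_cancel₀ hcon.ne]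
      rw [h4, neg_one_smul] at h2
      exact e'.ne_zero p (hC.pointed _ (he'C p) h2)
    · intro hz
      exact mem_of_nonneg' h0C hC.add hC.smul he'C hz
  refine ⟨e', hD', hmem, fun z => ⟨fun hz p => ?_, fun hz => ?_⟩⟩
  · obtain ⟨t, ht, hz'⟩ := interior_sub hz (e' p)
    have h1 := (hmem _).1 (interior_subset hz') p
    rw [map_sub, map_smul, Finsupp.sub_apply, Finsupp.smul_apply, e'.repr_self,
      Finsupp.single_eq_same, smul_eq_mul, mul_one] at h1
    linarith
  · have hopen : IsOpen {x : Fin ρ → ℝ | ∀ p : Ix d, 0 < e'.repr x p} := by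
      have : {x : Fin ρ → ℝ | ∀ p : Ix d, 0 < e'.repr x p} =
          ⋂ p : Ix d, {x | 0 < e'.repr x p} := by
        ext x
        simp
      rw [this]
      exact isOpen_iInter_of_finite fun p => isOpen_lt continuous_const (cont_repr e' p)
    refine interior_maximal ?_ hopen hz
    intro y hy
    exact (hmem y).2 fun p => (hy p).le

theorem t_ORT : S_ORT := ort

end Pool.Agent.P8H19.MB
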